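import Pool.Agent.MP_ddc23f_ag.H55.Unique

/-! Maximality of the configuration and non-freeness of its dual arrangement. -/

namespace Pool.Agent.MP_ddc23f_ag.H55

open MvPolynomial Pool.Agent.MP_ddc23f_ag.H75

variable {k : Type} [Field k]

lemma coeffs [Infinite k] (c : Fin 10 → k) (h : ∀ y : k, ∑ i, c i * y ^ (i : ℕ) = 0) (j : Fin 10) :
    c j = 0 := by
  have h0 : (∑ i, Polynomial.C (c i) * Polynomial.X ^ (i : ℕ) : Polynomial k) = 0 := by
    apply Polynomial.funext
    intro y
    simpa [Polynomial.eval_finsetSum] using h y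
  have := congrArg (fun q => Polynomial.coeff q j) h0
  simp only [Polynomial.finsetSum_coeff, Polynomial.coeff_C_mul_X_pow, Polynomial.coeff_zero,
    Fin.val_inj, Finset.sum_ite_eq, Finset.mem_univ, if_true] at this
  exact this

lemma inv_lines [CharZero k] (m c : k)
    (h : ∀ y : k, th (-(m * y) - c) y 1 + m * th y (-(m * y) - c) 1 = 0) :
    (m = 0 ∧ c * (c ^ 2 - 4) * (c ^ 2 - 9) = 0) ∨
      ((m = 1 ∨ m = -1) ∧ c * (c ^ 2 - 1) * (c ^ 2 - 25) = 0) := by
  have H := coeffs ![(-1)*c^9 + 39*c^7 + (-399)*c^5 + 1261*c^3 + (-900)*c,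
    (-9)*m*c^8 + 273*m*c^6 + (-1239)*m*c^4 + 975*m*c^2,
    (-36)*m^2*c^7 + 819*m^2*c^5 + (-966)*m^2*c^3 + (-1833)*m^2*c + 6*c^7 + (-798)*c^3 + 2808*c,
    (-84)*m^3*c^6 + 1365*m^3*c^4 + 546*m^3*c^2 + (-1547)*m^3 + 42*m*c^6 + (-273)*m*c^4
      + (-1596)*m*c^2 + 1547*m,
    (-126)*m^4*c^5 + 1365*m^4*c^3 + 1029*m^4*c + 126*m^2*c^5 + (-1092)*m^2*c^3 + (-798)*m^2*c
      + (-21)*c^5 + 273*c^3 + (-756)*c,
    (-126)*m^5*c^4 + 819*m^5*c^2 + 357*m^5 + 210*m^3*c^4 + (-1638)*m^3*c^2 + (-84)*m*c^4
      + 819*m*c^2 + (-357)*m,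
    (-84)*m^6*c^3 + 273*m^6*c + 210*m^4*c^3 + (-1092)*m^4*c + (-126)*m^2*c^3 + 819*m^2*c,
    (-36)*m^7*c^2 + 39*m^7 + 126*m^5*c^2 + (-273)*m^5 + (-84)*m^3*c^2 + 273*m^3 + (-6)*m*c^2
      + (-39)*m,
    (-9)*m^8*c + 42*m^6*c + (-21)*m^4*c + (-12)*m^2*c,
    (-1)*m^9 + 6*m^7 + (-6)*m^3 + m] (fun y => by
      have := h y
      simp only [th] at this
      simp only [Fin.sum_univ_succ, Fin.sum_univ_zero, Matrix.cons_val_zero, Matrix.cons_val_succ,
        Fin.val_zero, Fin.val_succ]
      linear_combination this)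
  have c9 := H 9
  have c8 := H 8
  have c4 := H 4
  have c3 := H 3
  simp only [Matrix.cons_val] at c9 c8 c4 c3
  by_cases m0 : m = 0
  · subst m0
    exact Or.inl ⟨rfl, by linear_combination (-1 / 21) * c4⟩
  by_cases m1 : m ^ 2 - 1 = 0
  · refine Or.inr ⟨sq_eq_one_iff.mp (by linear_combination m1), ?_⟩
    linear_combination (-1 / 21) * c4 + (1 / 21) * ((-126) * (m ^ 2 + 1) * c ^ 5 +
      1365 * (m ^ 2 + 1) * c ^ 3 + 1029 * (m ^ 2 + 1) * c + 126 * c ^ 5 - 1092 * c ^ 3 - 798 * c) * m1
  exfalso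
  have a9 : (m ^ 2 + 1) * (m ^ 4 - 6 * m ^ 2 + 1) = 0 := by
    apply mul_left_cancel₀ (mul_ne_zero m0 m1)
    linear_combination -c9
  have a8 : c * ((3 * m ^ 2 + 1) * (m ^ 2 - 4)) = 0 := by
    apply mul_left_cancel₀ (mul_ne_zero (mul_ne_zero m0 m0) m1)
    linear_combination (-1 / 3) * c8
  rcases mul_eq_zero.mp a8 with a | a
  · subst a
    apply mul_ne_zero m0 m1
    linear_combination (-1 / 1547) * c3
  · rcases mul_eq_zero.mp a with a | a
    · have : m ^ 2 = -1 / 3 := by linear_combination (1 / 3) * a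
      rw [show m ^ 4 = (m ^ 2) ^ 2 by ring, this] at a9
      norm_num at a9
    · have : m ^ 2 = 4 := by linear_combination a
      rw [show m ^ 4 = (m ^ 2) ^ 2 by ring, this] at a9
      norm_num at a9

lemma five_cases {c a b : k} (h : c * (c ^ 2 - a ^ 2) * (c ^ 2 - b ^ 2) = 0) :
    c = 0 ∨ c = a ∨ c = -a ∨ c = b ∨ c = -b := by
  rcases mul_eq_zero.mp h with h | h
  · rcases mul_eq_zero.mp h with h | h
    · exact Or.inl h
    · rcases sq_eq_sq_iff_eq_or_eq_neg.mp (sub_eq_zero.mp h) with h | h <;> tauto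
  · rcases sq_eq_sq_iff_eq_or_eq_neg.mp (sub_eq_zero.mp h) with h | h <;> tauto

theorem maximal [CharZero k] (Z' : Finset (Projectivization k (Fin 3 → k)))
    (h : General fun P => degPart (fatIdeal Z' 9 P) 10 = degPart (fatIdeal (Zc k) 9 P) 10) :
    Z' ⊆ Zc k := by
  intro w hw
  obtain ⟨G, n, hG0, hGn, hG⟩ := h
  set x := w.rep 0 with hx
  set y := w.rep 1 with hy
  set z := w.rep 2 with hz
  let R : MvPolynomial (Fin 3) k := Ff (X 0) (X 1) (X 2) (C x) (C y) (C z)
  have hR : ∀ p, eval p R = Ff (p 0) (p 1) (p 2) x y z := fun p => by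
    simp only [R, map_Ff, eval_X, eval_C]
  have hprod : X 0 * G * R = 0 := by
    apply MvPolynomial.funext
    intro p
    rw [map_mul, map_mul, eval_X, map_zero, hR]
    by_cases h0 : p 0 = 0
    · simp [h0]
    by_cases h1 : eval p G = 0
    · simp [h1]
    have hp : p ≠ 0 := fun e => h0 (by rw [e]; rfl)
    obtain ⟨t, ht, e⟩ := rep_mk p hp
    have a := hG (Projectivization.mk k p hp) (by
      rw [e, eval_smul_hom hGn]; exact mul_ne_zero (pow_ne_zero _ ht) h1)
    have b : Fp p ∈ degPart (fatIdeal Z' 9 (Projectivization.mk k p hp)) 10 := by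
      rw [a, fatIdeal, ptIdeal_mk]; exact Fp_mem p
    have c := eval_of_mem_vecIdeal (mem_setIdeal.mp (mem_degPart.mp b).1.1 w hw)
    rw [eval_Fp] at c
    rw [c, mul_zero]
  have hR0 : R = 0 := (mul_eq_zero.mp hprod).resolve_left (mul_ne_zero (X_ne_zero _) hG0)
  have E : ∀ a b c : k, Ff a b c x y z = 0 := fun a b c => by
    have := hR ![a, b, c]
    rw [hR0] at this
    simpa using this.symm
  have fin : ∀ (j : Fin 21) (t : k), x = t * vec j 0 → y = t * vec j 1 → z = t * vec j 2 →
      w ∈ Zc k := by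
    intro j t e0 e1 e2
    refine mem_Zc.mpr ⟨j, ?_⟩
    rw [← w.mk_rep, eq_comm, Projectivization.mk_eq_mk_iff']
    refine ⟨t, ?_⟩
    ext i
    fin_cases i
    · exact e0.symm
    · exact e1.symm
    · exact e2.symm
  by_cases x0 : x = 0
  · by_cases y0 : y = 0
    · exact fin 0 z (by simp [vec, zv, x0]) (by simp [vec, zv, y0]) (by simp [vec, zv])
    · obtain ⟨c, hc⟩ : ∃ c, z = y * c := ⟨z / y, by field_simp⟩
      have := inv_lines 0 c fun s => by
        have := E y⁻¹ 0 (-(s * y⁻¹))
        have e0 : 0 * z - -(s * y⁻¹) * y = s := by field_simp; ring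
        have e1 : -(s * y⁻¹) * x - y⁻¹ * z = -(0 * s) - c := by rw [x0, hc]; field_simp; ring
        have e2 : y⁻¹ * y - 0 * x = 1 := by field_simp; ring
        simp only [Ff, e0, e1, e2] at this
        apply mul_left_cancel₀ y0
        rw [x0] at this
        linear_combination this
      have hc' : c * (c ^ 2 - 2 ^ 2) * (c ^ 2 - 3 ^ 2) = 0 := by
        rcases this with a | a
        · linear_combination a.2
        · rcases a.1 with b | b <;> norm_num at b
      rcases five_cases hc' with rfl | rfl | rfl | rfl | rfl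
      · exact fin 6 y (by simp [vec, zv, x0]) (by simp [vec, zv]) (by simp [vec, zv, hc])
      · exact fin 7 y (by simp [vec, zv, x0]) (by simp [vec, zv]) (by simp [vec, zv, hc])
      · exact fin 8 y (by simp [vec, zv, x0]) (by simp [vec, zv]) (by simp [vec, zv, hc])
      · exact fin 9 y (by simp [vec, zv, x0]) (by simp [vec, zv]) (by simp [vec, zv, hc])
      · exact fin 10 y (by simp [vec, zv, x0]) (by simp [vec, zv]) (by simp [vec, zv, hc])
  · obtain ⟨c, hc⟩ : ∃ c, z = x * c := ⟨z / x, by field_simp⟩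
    obtain ⟨m, hm⟩ : ∃ m, y = x * m := ⟨y / x, by field_simp⟩
    have := inv_lines m c fun s => by
      have := E 0 (-x⁻¹) (s * x⁻¹)
      have e0 : -x⁻¹ * z - s * x⁻¹ * y = -(m * s) - c := by rw [hc, hm]; field_simp; ring
      have e1 : s * x⁻¹ * x - 0 * z = s := by field_simp; ring
      have e2 : 0 * y - -x⁻¹ * x = 1 := by field_simp; ring
      simp only [Ff, e0, e1, e2] at this
      apply mul_left_cancel₀ x0
      rw [hm] at this
      linear_combination this
    rcases this with ⟨rfl, a⟩ | ⟨rfl | rfl, a⟩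
    · rcases five_cases (a := 2) (b := 3) (c := c) (by linear_combination a) with
        rfl | rfl | rfl | rfl | rfl
      · exact fin 1 x (by simp [vec, zv]) (by simp [vec, zv, hm]) (by simp [vec, zv, hc])
      · exact fin 2 x (by simp [vec, zv]) (by simp [vec, zv, hm]) (by simp [vec, zv, hc])
      · exact fin 3 x (by simp [vec, zv]) (by simp [vec, zv, hm]) (by simp [vec, zv, hc])
      · exact fin 4 x (by simp [vec, zv]) (by simp [vec, zv, hm]) (by simp [vec, zv, hc])
      · exact fin 5 x (by simp [vec, zv]) (by simp [vec, zv, hm]) (by simp [vec, zv, hc])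
    · rcases five_cases (a := 1) (b := 5) (c := c) (by linear_combination a) with
        rfl | rfl | rfl | rfl | rfl
      · exact fin 11 x (by simp [vec, zv]) (by simp [vec, zv, hm]) (by simp [vec, zv, hc])
      · exact fin 12 x (by simp [vec, zv]) (by simp [vec, zv, hm]) (by simp [vec, zv, hc])
      · exact fin 13 x (by simp [vec, zv]) (by simp [vec, zv, hm]) (by simp [vec, zv, hc])
      · exact fin 14 x (by simp [vec, zv]) (by simp [vec, zv, hm]) (by simp [vec, zv, hc])
      · exact fin 15 x (by simp [vec, zv]) (by simp [vec, zv, hm]) (by simp [vec, zv, hc])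
    · rcases five_cases (a := 1) (b := 5) (c := c) (by linear_combination a) with
        rfl | rfl | rfl | rfl | rfl
      · exact fin 16 x (by simp [vec, zv]) (by simp [vec, zv, hm]) (by simp [vec, zv, hc])
      · exact fin 17 x (by simp [vec, zv]) (by simp [vec, zv, hm]) (by simp [vec, zv, hc])
      · exact fin 18 x (by simp [vec, zv]) (by simp [vec, zv, hm]) (by simp [vec, zv, hc])
      · exact fin 19 x (by simp [vec, zv]) (by simp [vec, zv, hm]) (by simp [vec, zv, hc])
      · exact fin 20 x (by simp [vec, zv]) (by simp [vec, zv, hm]) (by simp [vec, zv, hc])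

theorem free_basis (Z : Finset (Projectivization k (Fin 3 → k))) (hZ : DualFree Z) :
    ∃ B : Fin 3 → Derivation k (MvPolynomial (Fin 3) k) (MvPolynomial (Fin 3) k),
      (∀ i, B i ∈ logDer Z) ∧ (Matrix.of fun i j => B i (X j)).det ∣ dualPoly Z ^ 3 ∧
      ∀ θ ∈ logDer Z, ∃ g : Fin 3 → MvPolynomial (Fin 3) k,
        ∀ j, θ (X j) = ∑ i, g i * B i (X j) := by
  have : Module.Free (MvPolynomial (Fin 3) k) (logDer Z) := hZ
  have hf0 := dualPoly_ne Z
  set f := dualPoly Z with hf
  let ev : logDer Z →ₗ[MvPolynomial (Fin 3) k] (Fin 3 → MvPolynomial (Fin 3) k) :=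
    { toFun := fun θ i => θ.1 (X i)
      map_add' := fun a b => by ext i; simp
      map_smul' := fun c a => by ext i; simp }
  have hev : Function.Injective ev := fun a b h =>
    Subtype.ext (derivation_ext fun i => congrFun h i)
  have : Module.Finite (MvPolynomial (Fin 3) k) (logDer Z) := Module.Finite.of_injective ev hev
  have mf : ∀ n, f • cst n ∈ logDer Z := fun n => Dvd.intro _ rfl
  have hrank : Module.finrank (MvPolynomial (Fin 3) k) (logDer Z) = 3 := by
    apply le_antisymm
    · simpa using LinearMap.finrank_le_finrank_of_injective hev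
    · have li : LinearIndependent (MvPolynomial (Fin 3) k)
          fun i : Fin 3 => (⟨_, mf (Pi.single i 1)⟩ : logDer Z) := by
        apply LinearIndependent.of_comp ev
        refine Fintype.linearIndependent_iff.mpr fun g hg j => ?_
        have := congrFun hg j
        simp only [Finset.sum_apply, Pi.smul_apply, Pi.zero_apply, Function.comp_apply,
          smul_eq_mul] at this
        simp only [ev, LinearMap.coe_mk, AddHom.coe_mk, Derivation.smul_apply, cst_X,
          smul_eq_mul] at this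
        rw [Finset.sum_eq_single j (fun i _ hi => by simp [hi.symm])
          (by simp)] at this
        simpa [hf0] using this
      simpa using li.fintype_card_le_finrank
  let b := Module.finBasisOfFinrankEq (MvPolynomial (Fin 3) k) (logDer Z) hrank
  have sp : ∀ (ψ : logDer Z) j, ψ.1 (X j) = ∑ i, b.repr ψ i * (b i).1 (X j) := by
    intro ψ j
    have e := congrFun (congrArg ev (b.sum_repr ψ)) j
    simp only [map_sum, map_smul, Finset.sum_apply, Pi.smul_apply, smul_eq_mul] at e
    exact e.symm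
  refine ⟨fun i => (b i).1, fun i => (b i).2, ?_, fun θ hθ => ⟨_, sp ⟨θ, hθ⟩⟩⟩
  have key : ∀ ψ : Fin 3 → logDer Z, (Matrix.of fun i j => (b i).1 (X j)).det ∣
      (Matrix.of fun i j => (ψ i).1 (X j)).det := by
    intro ψ
    have : (Matrix.of fun i j => (ψ i).1 (X j)) =
        (Matrix.of fun i l => b.repr (ψ i) l) * Matrix.of fun i j => (b i).1 (X j) := by
      ext1 i j
      rw [Matrix.mul_apply]
      exact sp (ψ i) j
    rw [this, Matrix.det_mul]
    exact Dvd.intro_left _ rfl
  have := key fun i => ⟨_, mf (Pi.single i 1)⟩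
  simpa [Matrix.det_fin_three, cst_X, pow_succ] using this

/-- The vector field as a derivation. -/
noncomputable def theta (k : Type) [Field k] :
    Derivation k (MvPolynomial (Fin 3) k) (MvPolynomial (Fin 3) k) :=
  mkDerivation k ![th (X 0) (X 1) (X 2), th (X 1) (X 0) (X 2), 0]

lemma theta_X (i : Fin 3) : theta k (X i) = ![th (X 0) (X 1) (X 2), th (X 1) (X 0) (X 2), 0] i :=
  mkDerivation_X _ _ _

lemma theta_mem [CharZero k] [IsAlgClosed k] : theta k ∈ logDer (Zc k) := by
  classical
  have h1 : ∀ z ∈ Zc k, lin z.rep ∣ theta k (lin z.rep) := by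
    intro z hz
    obtain ⟨j, rfl⟩ := mem_Zc.mp hz
    obtain ⟨t, ht, e⟩ := rep_mk (vec j) (vec_ne (k := k) j)
    have hp := lin_prime (k := k) (Projectivization.mk k (vec j) (vec_ne (k := k) j)).rep_nonzero
    have : (Ideal.span {lin (Projectivization.mk k (vec j) (vec_ne j)).rep}).IsPrime :=
      (Ideal.span_singleton_prime hp.ne_zero).mpr hp
    rw [← Ideal.mem_span_singleton, ← IsPrime.vanishingIdeal_zeroLocus (K := k) (Ideal.span _),
      mem_vanishingIdeal_iff]
    intro q hq
    have hd := hq _ (Ideal.mem_span_singleton_self _)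
    rw [aeval_eq_eval] at hd ⊢
    rw [eval_lin, e, Fin.sum_univ_three] at hd
    simp only [Pi.smul_apply, smul_eq_mul] at hd
    have := tan_vec j (q 0) (q 1) (q 2) (mul_left_cancel₀ ht (by linear_combination hd))
    rw [deriv_lin, e, Fin.sum_univ_three]
    simp only [theta_X, Matrix.cons_val, map_add, map_mul, eval_C, map_th, eval_X, map_zero,
      Pi.smul_apply, smul_eq_mul]
    linear_combination t * this
  have h2 : ∀ s : Finset (Projectivization k (Fin 3 → k)),
      (∀ z ∈ s, lin z.rep ∣ theta k (lin z.rep)) →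
      ∏ z ∈ s, lin z.rep ∣ theta k (∏ z ∈ s, lin z.rep) := by
    intro s
    induction s using Finset.induction_on with
    | empty => simp
    | insert a s ha ih =>
      intro h
      rw [Finset.prod_insert ha, Derivation.leibniz, smul_eq_mul, smul_eq_mul]
      refine dvd_add (mul_dvd_mul_left _ (ih fun z hz => h z (Finset.mem_insert_of_mem hz))) ?_
      rw [mul_comm (lin a.rep)]
      exact mul_dvd_mul_left _ (h a (Finset.mem_insert_self _ _))
  exact h2 _ h1

lemma low [CharZero k] [IsAlgClosed k] {p : Fin 3 → k} (h : Good p)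
    {θ : Derivation k (MvPolynomial (Fin 3) k) (MvPolynomial (Fin 3) k)} (hθ : θ ∈ logDer (Zc k))
    (n : ℕ) (hn : n ≤ 8) (T : k) :
    eval ![p 1 * T - p 2 * 1, -(p 0 * T), p 0 * 1]
      (homogeneousComponent n (∑ i, C (p i) * θ (X i))) = 0 := by
  have Tn : ∀ (j : Fin 21) (q : Fin 3 → k), ∑ i, vec j i * q i = 0 →
      ∑ i, vec j i * eval q (homogeneousComponent n (θ (X i))) = 0 := by
    intro j q hq
    obtain ⟨t, ht, e⟩ := rep_mk (vec j) (vec_ne (k := k) j)
    have := comp_eval_zero q (∑ i, C (vec j i) * θ (X i)) (fun s => by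
      have := tangent_of_mem hθ (mem_Zc.mpr ⟨j, rfl⟩) (s • q) (by
        rw [e]
        simp only [Fin.sum_univ_three, Pi.smul_apply, smul_eq_mul] at hq ⊢
        linear_combination (t * s) * hq)
      rw [e] at this
      apply mul_left_cancel₀ ht
      simp only [Fin.sum_univ_three, Pi.smul_apply, smul_eq_mul, map_add, map_mul, eval_C]
        at this ⊢
      linear_combination this) n
    simpa only [map_sum, homogeneousComponent_C_mul, map_mul, eval_C] using this
  let g : Fin 3 → Polynomial k := ![Polynomial.C (p 1) * Polynomial.X + Polynomial.C (-p 2),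
    Polynomial.C (-p 0) * Polynomial.X, Polynomial.C (p 0)]
  have hg : ∀ i, (g i).natDegree ≤ 1 := fun i => by
    fin_cases i
    · exact Polynomial.natDegree_linear_le
    · exact (Polynomial.natDegree_C_mul_le _ _).trans Polynomial.natDegree_X_le
    · simp [g]
  have hge : ∀ T : k, (fun i => (g i).eval T) = ![p 1 * T - p 2 * 1, -(p 0 * T), p 0 * 1] := by
    intro T
    ext i
    fin_cases i <;> simp [g]
    ring
  have hd : ∀ w, (aeval g (homogeneousComponent n w)).natDegree ≤ 8 := fun w => by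
    have := aeval_natDegree_le _ (m := 8) (n := 1)
      ((homogeneousComponent_isHomogeneous n w).totalDegree_le.trans hn) g hg
    omega
  obtain ⟨c, h1, -⟩ := uniq h (aeval g (homogeneousComponent n (∑ i, C (p i) * θ (X i))))
    (aeval g (homogeneousComponent n (θ (X 1))) +
      Polynomial.X * aeval g (homogeneousComponent n (θ (X 2))))
    ((hd _).trans (by norm_num))
    ((Polynomial.natDegree_add_le _ _).trans (max_le ((hd _).trans (by norm_num))
      ((Polynomial.natDegree_mul_le_of_le Polynomial.natDegree_X_le (hd _)).trans (by norm_num))))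
    (fun j U e T hU hv => by
      have := Tn j ![p 1 * T - p 2 * 1, -(p 0 * T), p 0 * 1] (by
        rw [hv]
        simp only [Fin.sum_univ_three, Pi.smul_apply, smul_eq_mul, Matrix.cons_val]
        ring)
      rw [hv] at this
      simp only [Fin.sum_univ_three, Pi.smul_apply, smul_eq_mul, Matrix.cons_val] at this
      simp only [Polynomial.eval_add, Polynomial.eval_mul, Polynomial.eval_X, eval_aeval1, hge,
        Fin.sum_univ_three, map_add, homogeneousComponent_C_mul, map_mul, eval_C]
      apply mul_left_cancel₀ hU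
      linear_combination this)
  have c0 : c = 0 := by
    have := Polynomial.coeff_eq_zero_of_natDegree_lt
      (lt_of_le_of_lt (hd (∑ i, C (p i) * θ (X i))) (show 8 < 9 by norm_num))
    rw [h1, Polynomial.coeff_C_mul] at this
    exact (mul_eq_zero.mp this).resolve_right h.lead
  rw [← hge, ← eval_aeval1, h1, c0]
  simp

lemma exists_zero [CharZero k] [IsAlgClosed k] : ∃ x y : k, th x y 1 = 0 ∧ th y x 1 = 0 ∧
    ∀ j : Fin 21, vec j 0 * x + vec j 1 * y + vec j 2 ≠ 0 := by
  obtain ⟨r, hr⟩ := IsAlgClosed.exists_pow_nat_eq (297 : k) (show 0 < 2 by norm_num)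
  obtain ⟨x, hx⟩ := IsAlgClosed.exists_pow_nat_eq ((13 + r) / 10 : k) (show 0 < 2 by norm_num)
  obtain ⟨y, hy⟩ := IsAlgClosed.exists_pow_nat_eq ((13 - r) / 10 : k) (show 0 < 2 by norm_num)
  have hs : 5 * x ^ 2 + 5 * y ^ 2 = 13 := by rw [hx, hy]; ring
  have hp : 25 * (x ^ 2 * y ^ 2) = -32 := by rw [hx, hy]; linear_combination (-1 / 4) * hr
  have u : ∀ x y : k, 5 * x ^ 2 + 5 * y ^ 2 = 13 → 25 * (x ^ 2 * y ^ 2) = -32 → th x y 1 = 0 := by
    intro x y hs hp
    simp only [th]
    apply mul_eq_zero_of_right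
    linear_combination (x ^ 2 / 5 + 21 / 5 * y ^ 2 - 117 / 25) * hs - 28 / 25 * hp
  have A : ∀ x y c : k, 5 * x ^ 2 + 5 * y ^ 2 = 13 → 25 * (x ^ 2 * y ^ 2) = -32 → x + c = 0 →
      25 * c ^ 4 - 65 * c ^ 2 - 32 = 0 := by
    intro x y c hs hp h
    obtain rfl : x = -c := by linear_combination h
    linear_combination 5 * c ^ 2 * hs - hp
  have B : ∀ x y c : k, 5 * x ^ 2 + 5 * y ^ 2 = 13 → 25 * (x ^ 2 * y ^ 2) = -32 → x + y + c = 0 →
      (5 * c ^ 2 - 13) ^ 2 + 128 = 0 := by
    intro x y c hs hp h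
    obtain rfl : c = -(x + y) := by linear_combination h
    linear_combination (5 * x ^ 2 + 5 * y ^ 2 - 13 + 20 * x * y) * hs + 4 * hp
  refine ⟨x, y, u x y hs hp, u y x (by linear_combination hs) (by linear_combination hp), ?_⟩
  have A1 : ∀ c : k, 25 * c ^ 4 - 65 * c ^ 2 - 32 ≠ 0 → 1 * x + 0 * y + c ≠ 0 := fun c hc e =>
    hc (A x y c hs hp (by linear_combination e))
  have A2 : ∀ c : k, 25 * c ^ 4 - 65 * c ^ 2 - 32 ≠ 0 → 0 * x + 1 * y + c ≠ 0 := fun c hc e =>
    hc (A y x c (by linear_combination hs) (by linear_combination hp) (by linear_combination e))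
  have B1 : ∀ c : k, (5 * c ^ 2 - 13) ^ 2 + 128 ≠ 0 → 1 * x + 1 * y + c ≠ 0 := fun c hc e =>
    hc (B x y c hs hp (by linear_combination e))
  have B2 : ∀ c : k, (5 * c ^ 2 - 13) ^ 2 + 128 ≠ 0 → 1 * x + -1 * y + c ≠ 0 := fun c hc e =>
    hc (B x (-y) c (by linear_combination hs) (by linear_combination hp) (by linear_combination e))
  intro j
  fin_cases j <;> simp only [vec, zv, Matrix.cons_val, Fin.reduceFinMk, Fin.zero_eta, Fin.mk_one,
    Int.cast_zero, Int.cast_one, Int.cast_neg, Int.cast_ofNat]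
  · simp
  all_goals first
    | exact A1 _ (by norm_num)
    | exact A2 _ (by norm_num)
    | exact B1 _ (by norm_num)
    | exact B2 _ (by norm_num)

theorem not_free [CharZero k] [IsAlgClosed k] : ¬ DualFree (Zc k) := by
  intro hZ
  obtain ⟨B, hB, ⟨Q, hQ⟩, hsp⟩ := free_basis _ hZ
  obtain ⟨g, hg⟩ := hsp _ theta_mem
  obtain ⟨x, y, w1, w2, w3⟩ := exists_zero (k := k)
  have g0 : ∀ i (q : Fin 3 → k), Polynomial.X ∣ sig q (g i) := by
    intro i q
    have hz : sig ![x, y, 1] (g i) = 0 := by
      apply Polynomial.eq_zero_of_infinite_isRoot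
      refine (Set.finite_singleton (0 : k)).infinite_compl.mono fun t ht => ?_
      have ht : t ≠ 0 := ht
      rw [Set.mem_ofPred_eq, Polynomial.IsRoot, eval_sig]
      have hf : eval (t • ![x, y, 1]) (dualPoly (Zc k)) ≠ 0 := by
        rw [dualPoly_eq, map_prod, Finset.prod_ne_zero_iff]
        intro z hz
        obtain ⟨j, rfl⟩ := mem_Zc.mp hz
        obtain ⟨s, hs, e⟩ := rep_mk (vec j) (vec_ne (k := k) j)
        rw [eval_lin, e, Fin.sum_univ_three]
        simp only [Pi.smul_apply, smul_eq_mul, Matrix.cons_val]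
        intro e0
        exact mul_ne_zero (mul_ne_zero hs ht) (w3 j) (by linear_combination e0)
      have hdet : ((eval (t • ![x, y, 1])).mapMatrix (Matrix.of fun i j => B i (X j))).det ≠ 0 := by
        rw [← RingHom.map_det]
        intro e0
        have := congrArg (eval (t • ![x, y, 1])) hQ
        rw [map_pow, map_mul, e0, zero_mul] at this
        exact pow_ne_zero _ hf this
      have hv : Matrix.vecMul (fun i => eval (t • ![x, y, 1]) (g i))
          ((eval (t • ![x, y, 1])).mapMatrix (Matrix.of fun i j => B i (X j))) = 0 := by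
        ext j
        have := congrArg (eval (t • ![x, y, 1])) (hg j)
        rw [map_sum] at this
        simp only [map_mul] at this
        simp only [Matrix.vecMul, dotProduct, RingHom.mapMatrix_apply, Matrix.map_apply,
          Matrix.of_apply, Pi.zero_apply]
        rw [← this, theta_X]
        fin_cases j
        · simp only [Fin.zero_eta, Matrix.cons_val, map_th, eval_X, Pi.smul_apply, smul_eq_mul,
            th_smul, w1, mul_zero]
        · simp only [Fin.mk_one, Matrix.cons_val, map_th, eval_X, Pi.smul_apply, smul_eq_mul,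
            th_smul, w2, mul_zero]
        · simp
      exact congrFun (Matrix.eq_zero_of_vecMul_eq_zero hdet hv) i
    have a := eval_sig ![x, y, 1] (g i) 0
    rw [Polynomial.X_dvd_iff, Polynomial.coeff_zero_eq_eval_zero, eval_sig, zero_smul]
    rw [hz, zero_smul] at a
    simpa using a.symm
  obtain ⟨G, hG0, hG⟩ := exists_good (k := k)
  obtain ⟨p, hp⟩ : ∃ p, eval p G ≠ 0 := by
    by_contra hc
    push Not at hc
    exact hG0 (MvPolynomial.funext (by simpa using hc))
  have h := hG p hp
  apply h.lead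
  have : alP p = 0 := by
    apply Polynomial.funext
    intro T
    set q : Fin 3 → k := ![p 1 * T - p 2 * 1, -(p 0 * T), p 0 * 1] with hq
    have e : ∑ j, C (p j) * theta k (X j) = ∑ i, g i * ∑ j, C (p j) * B i (X j) := by
      simp only [hg, Fin.sum_univ_three]; ring
    have d : Polynomial.X ^ 10 ∣ sig q (∑ j, C (p j) * theta k (X j)) := by
      rw [e, map_sum]
      refine Finset.dvd_sum fun i _ => ?_
      rw [map_mul, pow_succ']
      refine mul_dvd_mul (g0 i q) (Polynomial.X_pow_dvd_iff.mpr fun n hn => ?_)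
      rw [coeff_sig]
      exact low h (hB i) n (by omega) T
    have hh : (∑ j, C (p j) * theta k (X j)).IsHomogeneous 9 := by
      refine IsHomogeneous.sum _ _ _ fun j _ => IsHomogeneous.C_mul ?_ _
      rw [theta_X]
      fin_cases j
      · exact th_hom (isHomogeneous_X k 0) (isHomogeneous_X k 1) (isHomogeneous_X k 2)
      · exact th_hom (isHomogeneous_X k 1) (isHomogeneous_X k 0) (isHomogeneous_X k 2)
      · exact isHomogeneous_zero _ _ _
    have := Polynomial.X_pow_dvd_iff.mp d 9 (by norm_num)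
    rw [sig_hom q hh, Polynomial.coeff_C_mul_X_pow, if_pos rfl] at this
    rw [eval_alP, Polynomial.eval_zero, ← this]
    simp only [Fin.sum_univ_three, theta_X, Matrix.cons_val, map_add, map_mul, eval_C, map_th,
      eval_X, map_zero, hq, al]
    ring
  rw [this, Polynomial.coeff_zero]

end Pool.Agent.MP_ddc23f_ag.H55
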