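import Pool.Agent.MP_ddc23f_ag.H55.Theta

/-! The 21 points and the uniqueness lemma. -/

namespace Pool.Agent.MP_ddc23f_ag.H55

open MvPolynomial Pool.Agent.MP_ddc23f_ag.H75

/-- Integer coordinates of the 21 points. -/
def zv : Fin 21 → Fin 3 → ℤ :=
  ![![0, 0, 1],
    ![1, 0, 0], ![1, 0, 2], ![1, 0, -2], ![1, 0, 3], ![1, 0, -3],
    ![0, 1, 0], ![0, 1, 2], ![0, 1, -2], ![0, 1, 3], ![0, 1, -3],
    ![1, 1, 0], ![1, 1, 1], ![1, 1, -1], ![1, 1, 5], ![1, 1, -5],
    ![1, -1, 0], ![1, -1, 1], ![1, -1, -1], ![1, -1, 5], ![1, -1, -5]]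

lemma zv_cross : ∀ i j : Fin 21, zv i 1 * zv j 2 - zv i 2 * zv j 1 = 0 →
    zv i 2 * zv j 0 - zv i 0 * zv j 2 = 0 → zv i 0 * zv j 1 - zv i 1 * zv j 0 = 0 → i = j := by
  decide +kernel

lemma zv_ne : ∀ j : Fin 21, zv j 0 ≠ 0 ∨ zv j 1 ≠ 0 ∨ zv j 2 ≠ 0 := by decide +kernel

variable {k : Type} [Field k]

/-- Vectors representing the 21 points. -/
def vec (j : Fin 21) : Fin 3 → k := fun i => (zv j i : k)

lemma vec_ne [CharZero k] (j : Fin 21) : (vec j : Fin 3 → k) ≠ 0 := by
  intro h
  rcases zv_ne j with a | a | a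
  · exact a (by simpa [vec] using congrFun h 0)
  · exact a (by simpa [vec] using congrFun h 1)
  · exact a (by simpa [vec] using congrFun h 2)

open Classical in
/-- The configuration. -/
noncomputable def Zc (k : Type) [Field k] [CharZero k] :
    Finset (Projectivization k (Fin 3 → k)) :=
  Finset.univ.image fun j => Projectivization.mk k (vec j) (vec_ne j)

lemma mem_Zc [CharZero k] {z : Projectivization k (Fin 3 → k)} :
    z ∈ Zc k ↔ ∃ j, Projectivization.mk k (vec j) (vec_ne j) = z := by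
  simp [Zc]

lemma mem_IZ [CharZero k] {F : MvPolynomial (Fin 3) k} :
    F ∈ setIdeal (Zc k) ↔ ∀ j, F ∈ vecIdeal (vec j) := by
  rw [mem_setIdeal]
  constructor
  · intro h j
    rw [← ptIdeal_mk _ (vec_ne j)]
    exact h _ (mem_Zc.mpr ⟨j, rfl⟩)
  · intro h z hz
    obtain ⟨j, rfl⟩ := mem_Zc.mp hz
    rw [ptIdeal_mk]; exact h j

lemma tanA (c x y z : k) (hc : c * (c ^ 2 - 4) * (c ^ 2 - 9) = 0) (h : x + c * z = 0) :
    th x y z = 0 := by
  obtain rfl : x = -(c * z) := by linear_combination h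
  simp only [th]
  apply mul_eq_zero_of_left
  linear_combination (-z ^ 5) * hc

lemma tanB (c x y z : k) (hc : c * (c ^ 2 - 1) * (c ^ 2 - 25) = 0) (h : x + y + c * z = 0) :
    th x y z + th y x z = 0 := by
  have e : th x y z + th y x z = (x + y) * ((x + y) ^ 2 - z ^ 2) * ((x + y) ^ 2 - 25 * z ^ 2) *
      (x^4 + (-5)*x^3*y + 9*x^2*y^2 + (-13)*x^2*z^2 + (-5)*x*y^3 + 13*x*y*z^2 + y^4 + (-13)*y^2*z^2 + 36*z^4) := by
    simp only [th]; ring
  have h' : x + y = -(c * z) := by linear_combination h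
  rw [e, h']
  apply mul_eq_zero_of_left
  linear_combination (-z ^ 5) * hc

lemma th_neg (x y z : k) : th x (-y) z = th x y z ∧ th (-x) y z = -th x y z := by
  constructor <;> simp only [th] <;> ring

lemma tan_vec (j : Fin 21) (x y z : k) (h : vec j 0 * x + vec j 1 * y + vec j 2 * z = 0) :
    vec j 0 * th x y z + vec j 1 * th y x z = 0 := by
  have A : ∀ c : k, c * (c ^ 2 - 4) * (c ^ 2 - 9) = 0 → 1 * x + 0 * y + c * z = 0 →
      1 * th x y z + 0 * th y x z = 0 := fun c hc e => by
    linear_combination tanA c x y z hc (by linear_combination e)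
  have B : ∀ c : k, c * (c ^ 2 - 4) * (c ^ 2 - 9) = 0 → 0 * x + 1 * y + c * z = 0 →
      0 * th x y z + 1 * th y x z = 0 := fun c hc e => by
    linear_combination tanA c y x z hc (by linear_combination e)
  have D : ∀ c : k, c * (c ^ 2 - 1) * (c ^ 2 - 25) = 0 → 1 * x + 1 * y + c * z = 0 →
      1 * th x y z + 1 * th y x z = 0 := fun c hc e => by
    linear_combination tanB c x y z hc (by linear_combination e)
  have E : ∀ c : k, c * (c ^ 2 - 1) * (c ^ 2 - 25) = 0 → 1 * x + -1 * y + c * z = 0 →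
      1 * th x y z + -1 * th y x z = 0 := fun c hc e => by
    linear_combination tanB c x (-y) z hc (by linear_combination e) - (th_neg x y z).1 -
      (th_neg y x z).2
  revert h
  fin_cases j <;> simp only [vec, zv, Matrix.cons_val, Fin.reduceFinMk, Fin.zero_eta, Fin.mk_one,
    Int.cast_zero, Int.cast_one, Int.cast_neg, Int.cast_ofNat]
  · intro _; ring
  all_goals first
    | exact A _ (by norm_num)
    | exact B _ (by norm_num)
    | exact D _ (by norm_num)
    | exact E _ (by norm_num)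

lemma Good.cross [CharZero k] {p : Fin 3 → k} (h : Good p) {i j : Fin 21}
    (e : (vec i 1 * vec j 2 - vec i 2 * vec j 1) * p 0 + (vec i 2 * vec j 0 - vec i 0 * vec j 2) * p 1
      + (vec i 0 * vec j 1 - vec i 1 * vec j 0) * p 2 = 0) : i = j := by
  have a := tan_vec i (vec i 1 * vec j 2 - vec i 2 * vec j 1 : k)
    (vec i 2 * vec j 0 - vec i 0 * vec j 2) (vec i 0 * vec j 1 - vec i 1 * vec j 0) (by ring)
  have b := tan_vec j (vec i 1 * vec j 2 - vec i 2 * vec j 1 : k)
    (vec i 2 * vec j 0 - vec i 0 * vec j 2) (vec i 0 * vec j 1 - vec i 1 * vec j 0) (by ring)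
  have := h _ _ _ ⟨by linear_combination vec j 1 * a - vec i 1 * b,
    by linear_combination vec i 0 * b - vec j 0 * a,
    by linear_combination vec i 2 * b - vec j 2 * a⟩ e
  simp only [vec] at this
  exact zv_cross i j (by exact_mod_cast this.1) (by exact_mod_cast this.2.1)
    (by exact_mod_cast this.2.2)

lemma chart {p : Fin 3 → k} (h0 : p 0 ≠ 0) (q : Fin 3 → k) (hq : p 0 * q 1 - p 1 * q 0 ≠ 0) :
    ∃ U e T : k, U ≠ 0 ∧ q = U • ![e * p 0, e * p 1 + 1, e * p 2 + T] := by
  obtain ⟨D, hD⟩ : ∃ D, D = p 0 * q 1 - p 1 * q 0 := ⟨_, rfl⟩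
  rw [← hD] at hq
  refine ⟨D / p 0, q 0 / D, (p 0 * q 2 - p 2 * q 0) / D, div_ne_zero hq h0, ?_⟩
  ext i
  fin_cases i
  · simp; field_simp
  · simp; field_simp; linear_combination -hD
  · simp; field_simp; ring

/-- The tangent cone in the affine coordinate. -/
noncomputable def alP (p : Fin 3 → k) : Polynomial k :=
  al (Polynomial.C (p 0)) (Polynomial.C (p 1)) (Polynomial.C (p 2)) 1 Polynomial.X

/-- The top part in the affine coordinate. -/
noncomputable def beP (p : Fin 3 → k) : Polynomial k :=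
  be (Polynomial.C (p 0)) (Polynomial.C (p 1)) (Polynomial.C (p 2)) 1 Polynomial.X

lemma eval_alP (p : Fin 3 → k) (T : k) : (alP p).eval T = al (p 0) (p 1) (p 2) 1 T := by
  rw [← Polynomial.coe_evalRingHom]
  simp only [alP, map_al, map_one, Polynomial.coe_evalRingHom, Polynomial.eval_X, Polynomial.eval_C]

lemma eval_beP (p : Fin 3 → k) (T : k) : (beP p).eval T = be (p 0) (p 1) (p 2) 1 T := by
  rw [← Polynomial.coe_evalRingHom]
  simp only [beP, map_be, map_one, Polynomial.coe_evalRingHom, Polynomial.eval_X, Polynomial.eval_C]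

lemma deg_al_be (p : Fin 3 → k) : (alP p).natDegree ≤ 9 ∧ (beP p).natDegree ≤ 9 ∧
    (alP p).coeff 9 = al (p 0) (p 1) (p 2) 0 1 := by
  have d0 : (Polynomial.C (p 1) * Polynomial.X - Polynomial.C (p 2) * 1).natDegree ≤ 1 := by
    compute_degree
  have d1 : (-(Polynomial.C (p 0) * Polynomial.X)).natDegree ≤ 1 := by compute_degree
  have d2 : (Polynomial.C (p 0) * 1).natDegree ≤ 1 := by compute_degree!
  have a := th_top d0 d1 d2
  have b := th_top d1 d0 d2
  refine ⟨(Polynomial.natDegree_add_le _ _).trans (max_le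
    ((Polynomial.natDegree_C_mul_le _ _).trans a.1) ((Polynomial.natDegree_C_mul_le _ _).trans b.1)),
    by simpa [beP, be] using b.1, ?_⟩
  simp only [alP, al, Polynomial.coeff_add, Polynomial.coeff_C_mul, a.2, b.2]
  simp [Polynomial.coeff_C, Polynomial.coeff_one]

lemma Good.lead {p : Fin 3 → k} (h : Good p) : (alP p).coeff 9 ≠ 0 := by
  rw [(deg_al_be p).2.2]
  intro e
  simpa using (h.root 0 1 e (by simp [be])).2

theorem uniq [CharZero k] [IsAlgClosed k] {p : Fin 3 → k} (h : Good p) (A B : Polynomial k)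
    (hA : A.natDegree ≤ 9) (hB : B.natDegree ≤ 10)
    (H : ∀ (j : Fin 21) (U e T : k), U ≠ 0 → vec j = U • ![e * p 0, e * p 1 + 1, e * p 2 + T] →
      e * A.eval T + B.eval T = 0) :
    ∃ c : k, A = Polynomial.C c * alP p ∧ B = Polynomial.C c * beP p := by
  have h0 := h.p0
  have hq : ∀ j : Fin 20, p 0 * vec j.succ 1 - p 1 * vec j.succ 0 ≠ 0 := by
    intro j e
    refine Fin.succ_ne_zero j (h.cross ?_)
    have a0 : (vec 0 0 : k) = 0 := by simp [vec, zv]
    have a1 : (vec 0 1 : k) = 0 := by simp [vec, zv]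
    have a2 : (vec 0 2 : k) = 1 := by simp [vec, zv]
    rw [a0, a1, a2]
    linear_combination e
  choose U e T hU hv using fun j : Fin 20 => chart h0 (vec j.succ) (hq j)
  have hT : Function.Injective T := by
    intro i j hij
    refine Fin.succ_injective _ (h.cross ?_)
    rw [hv i, hv j, hij]
    simp only [Pi.smul_apply, smul_eq_mul, Matrix.cons_val]
    ring
  have hab : ∀ j, e j * (alP p).eval (T j) + (beP p).eval (T j) = 0 := by
    intro j
    rw [eval_alP, eval_beP]
    have := tan_vec j.succ (p 1 * T j - p 2 * 1) (-(p 0 * T j)) (p 0 * 1) (by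
      rw [hv j]
      simp only [Pi.smul_apply, smul_eq_mul, Matrix.cons_val]
      ring)
    rw [hv j] at this
    simp only [Pi.smul_apply, smul_eq_mul, Matrix.cons_val] at this
    apply mul_left_cancel₀ (hU j)
    simp only [al, be]
    linear_combination this
  obtain ⟨d1, d2, -⟩ := deg_al_be p
  have hz : alP p * B - beP p * A = 0 := by
    refine Polynomial.eq_zero_of_natDegree_lt_card_of_eval_eq_zero _ hT (fun j => ?_) ?_
    · simp only [Polynomial.eval_sub, Polynomial.eval_mul]
      linear_combination (alP p).eval (T j) * H _ _ _ _ (hU j) (hv j) - A.eval (T j) * hab j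
    · have a := Polynomial.natDegree_mul_le_of_le d1 hB
      have b := Polynomial.natDegree_mul_le_of_le d2 hA
      have c := Polynomial.natDegree_sub_le (alP p * B) (beP p * A)
      simp only [Fintype.card_fin]
      omega
  have hco : IsCoprime (alP p) (beP p) := by
    rw [Polynomial.isCoprime_iff_aeval_ne_zero_of_isAlgClosed k k]
    intro a
    by_contra hc
    push Not at hc
    simp only [Polynomial.coe_aeval_eq_eval, eval_alP, eval_beP] at hc
    simpa using (h.root 1 a hc.1 hc.2).1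
  have ha0 : alP p ≠ 0 := fun e => h.lead (by rw [e]; simp)
  obtain ⟨c, hc⟩ : alP p ∣ A := hco.dvd_of_dvd_mul_left ⟨B, by linear_combination -hz⟩
  have hc0 : c.natDegree = 0 := by
    by_cases c0 : c = 0
    · simp [c0]
    · have := Polynomial.le_natDegree_of_ne_zero h.lead
      rw [hc, Polynomial.natDegree_mul ha0 c0] at hA
      omega
  rw [Polynomial.eq_C_of_natDegree_eq_zero hc0] at hc
  refine ⟨c.coeff 0, by rw [hc, mul_comm], mul_left_cancel₀ ha0 ?_⟩
  rw [hc] at hz
  linear_combination hz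

end Pool.Agent.MP_ddc23f_ag.H55
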