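import Pool.Agent.MP_ddc23f_ag.H75.Saito

/-! The vector field of degree nine and the family of curves of degree ten. -/

namespace Pool.Agent.MP_ddc23f_ag.H55

open MvPolynomial Pool.Agent.MP_ddc23f_ag.H75

/-- First component of the vector field; the second is `th y x z`, the third is zero. -/
def th {R : Type} [CommRing R] (x y z : R) : R :=
  x * (x * x - 4 * (z * z)) * (x * x - 9 * (z * z)) *
    (x * x * (x * x) - 6 * (x * x * (y * y)) + 21 * (y * y * (y * y)) - 26 * (x * x * (z * z))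
      - 78 * (y * y * (z * z)) + 25 * (z * z * (z * z)))

lemma map_th {R S F : Type} [CommRing R] [CommRing S] [FunLike F R S] [RingHomClass F R S]
    (φ : F) (x y z : R) : φ (th x y z) = th (φ x) (φ y) (φ z) := by
  simp only [th, map_add, map_sub, map_mul, map_ofNat]

lemma th_grade {R : Type} [CommRing R] (P : ℕ → R → Prop)
    (hm : ∀ m n a b, P m a → P n b → P (m + n) (a * b))
    (ha : ∀ n a b, P n a → P n b → P n (a + b)) (hs : ∀ n a b, P n a → P n b → P n (a - b))
    {x y z : R} (hx : P 1 x) (hy : P 1 y) (hz : P 1 z) : P 9 (th x y z) := by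
  have hn : ∀ (c : ℕ) n a, P n a → P n ((c : R) * a) := by
    intro c n a h
    induction c with
    | zero => simpa using hs n a a h h
    | succ c ih => rw [Nat.cast_succ, add_mul, one_mul]; exact ha _ _ _ ih h
  have xx := hm _ _ _ _ hx hx
  have yy := hm _ _ _ _ hy hy
  have zz := hm _ _ _ _ hz hz
  exact hm 5 4 _ _ (hm 3 2 _ _ (hm 1 2 _ _ hx (hs _ _ _ xx (hn 4 _ _ zz)))
    (hs _ _ _ xx (hn 9 _ _ zz)))
    (ha _ _ _ (hs _ _ _ (hs _ _ _ (ha _ _ _ (hs _ _ _ (hm 2 2 _ _ xx xx)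
      (hn 6 _ _ (hm 2 2 _ _ xx yy))) (hn 21 _ _ (hm 2 2 _ _ yy yy)))
      (hn 26 _ _ (hm 2 2 _ _ xx zz))) (hn 78 _ _ (hm 2 2 _ _ yy zz)))
      (hn 25 _ _ (hm 2 2 _ _ zz zz)))

lemma th_smul {R : Type} [CommRing R] (t x y z : R) :
    th (t * x) (t * y) (t * z) = t ^ 9 * th x y z := by
  simp only [th]; ring

/-- The curve of degree ten: `q · θ(p × q)`. -/
def Ff {R : Type} [CommRing R] (p0 p1 p2 q0 q1 q2 : R) : R :=
  q0 * th (p1 * q2 - p2 * q1) (p2 * q0 - p0 * q2) (p0 * q1 - p1 * q0) +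
    q1 * th (p2 * q0 - p0 * q2) (p1 * q2 - p2 * q1) (p0 * q1 - p1 * q0)

lemma map_Ff {R S F : Type} [CommRing R] [CommRing S] [FunLike F R S] [RingHomClass F R S]
    (φ : F) (p0 p1 p2 q0 q1 q2 : R) :
    φ (Ff p0 p1 p2 q0 q1 q2) = Ff (φ p0) (φ p1) (φ p2) (φ q0) (φ q1) (φ q2) := by
  simp only [Ff, map_add, map_sub, map_mul, map_th]

/-- The tangent cone at `p`. -/
def al {R : Type} [CommRing R] (p0 p1 p2 u t : R) : R :=
  p0 * th (p1 * t - p2 * u) (-(p0 * t)) (p0 * u) + p1 * th (-(p0 * t)) (p1 * t - p2 * u) (p0 * u)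

/-- The top part of the curve in coordinates centred at `p`. -/
def be {R : Type} [CommRing R] (p0 p1 p2 u t : R) : R :=
  u * th (-(p0 * t)) (p1 * t - p2 * u) (p0 * u)

lemma map_al {R S F : Type} [CommRing R] [CommRing S] [FunLike F R S] [RingHomClass F R S]
    (φ : F) (p0 p1 p2 u t : R) :
    φ (al p0 p1 p2 u t) = al (φ p0) (φ p1) (φ p2) (φ u) (φ t) := by
  simp only [al, map_add, map_sub, map_mul, map_neg, map_th]

lemma map_be {R S F : Type} [CommRing R] [CommRing S] [FunLike F R S] [RingHomClass F R S]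
    (φ : F) (p0 p1 p2 u t : R) :
    φ (be p0 p1 p2 u t) = be (φ p0) (φ p1) (φ p2) (φ u) (φ t) := by
  simp only [be, map_sub, map_mul, map_neg, map_th]

lemma Ff_chart {R : Type} [CommRing R] (p0 p1 p2 e u t : R) :
    Ff p0 p1 p2 (e * p0) (e * p1 + u) (e * p2 + t) = e * al p0 p1 p2 u t + be p0 p1 p2 u t := by
  have e0 : p1 * (e * p2 + t) - p2 * (e * p1 + u) = p1 * t - p2 * u := by ring
  have e1 : p2 * (e * p0) - p0 * (e * p2 + t) = -(p0 * t) := by ring
  have e2 : p0 * (e * p1 + u) - p1 * (e * p0) = p0 * u := by ring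
  simp only [Ff, al, be, e0, e1, e2]
  ring

variable {k : Type} [Field k]

/-- The curve with a ninefold point at `p`. -/
noncomputable def Fp (p : Fin 3 → k) : MvPolynomial (Fin 3) k :=
  Ff (C (p 0)) (C (p 1)) (C (p 2)) (X 0) (X 1) (X 2)

lemma eval_Fp (p q : Fin 3 → k) :
    eval q (Fp p) = Ff (p 0) (p 1) (p 2) (q 0) (q 1) (q 2) := by
  simp only [Fp, map_Ff, eval_C, eval_X]

lemma th_hom {x y z : MvPolynomial (Fin 3) k} (hx : x.IsHomogeneous 1) (hy : y.IsHomogeneous 1)
    (hz : z.IsHomogeneous 1) : (th x y z).IsHomogeneous 9 :=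
  th_grade (fun n a => IsHomogeneous a n) (fun _ _ _ _ h1 h2 => h1.mul h2)
    (fun _ _ _ h1 h2 => h1.add h2) (fun _ _ _ h1 h2 => h1.sub h2) hx hy hz

lemma Fp_hom (p : Fin 3 → k) : (Fp p).IsHomogeneous 10 := by
  have h : ∀ (a b : k) (i j : Fin 3),
      (C a * X i - C b * X j : MvPolynomial (Fin 3) k).IsHomogeneous 1 := fun a b i j =>
    ((isHomogeneous_X k i).C_mul a).sub ((isHomogeneous_X k j).C_mul b)
  exact ((isHomogeneous_X k 0).mul (th_hom (h _ _ _ _) (h _ _ _ _) (h _ _ _ _))).add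
    ((isHomogeneous_X k 1).mul (th_hom (h _ _ _ _) (h _ _ _ _) (h _ _ _ _)))

lemma Fp_mem_pow (p : Fin 3 → k) : Fp p ∈ vecIdeal p ^ 9 := by
  have h : ∀ i j : Fin 3, (C (p i) * X j - C (p j) * X i : MvPolynomial (Fin 3) k) ∈
      vecIdeal p ^ 1 := by
    intro i j
    rw [pow_one, mem_vecIdeal]
    intro t
    simp only [map_sub, map_mul, eval_C, eval_X, Pi.smul_apply, smul_eq_mul]
    ring
  have g : ∀ x y z : MvPolynomial (Fin 3) k, x ∈ vecIdeal p ^ 1 → y ∈ vecIdeal p ^ 1 →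
      z ∈ vecIdeal p ^ 1 → th x y z ∈ vecIdeal p ^ 9 := fun x y z hx hy hz =>
    th_grade (fun n a => a ∈ vecIdeal p ^ n)
      (fun _ _ _ _ h1 h2 => by rw [pow_add]; exact Ideal.mul_mem_mul h1 h2)
      (fun _ _ _ h1 h2 => add_mem h1 h2) (fun _ _ _ h1 h2 => sub_mem h1 h2) hx hy hz
  exact add_mem (Ideal.mul_mem_left _ _ (g _ _ _ (h 1 2) (h 2 0) (h 0 1)))
    (Ideal.mul_mem_left _ _ (g _ _ _ (h 2 0) (h 1 2) (h 0 1)))

lemma th_top {x y z : Polynomial k} (hx : x.natDegree ≤ 1) (hy : y.natDegree ≤ 1)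
    (hz : z.natDegree ≤ 1) : (th x y z).natDegree ≤ 9 ∧
      (th x y z).coeff 9 = th (x.coeff 1) (y.coeff 1) (z.coeff 1) := by
  have := th_grade (R := Polynomial k × k) (fun n a => a.1.natDegree ≤ n ∧ a.1.coeff n = a.2)
    (fun _ _ a b h1 h2 => ⟨Polynomial.natDegree_mul_le_of_le h1.1 h2.1, by
      rw [Prod.fst_mul, Polynomial.coeff_mul_add_eq_of_natDegree_le h1.1 h2.1, h1.2, h2.2]; rfl⟩)
    (fun _ a b h1 h2 => ⟨(Polynomial.natDegree_add_le _ _).trans (max_le h1.1 h2.1), by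
      rw [Prod.fst_add, Polynomial.coeff_add, h1.2, h2.2]; rfl⟩)
    (fun _ a b h1 h2 => ⟨(Polynomial.natDegree_sub_le _ _).trans (max_le h1.1 h2.1), by
      rw [Prod.fst_sub, Polynomial.coeff_sub, h1.2, h2.2]; rfl⟩)
    (x := (x, x.coeff 1)) (y := (y, y.coeff 1)) (z := (z, z.coeff 1)) ⟨hx, rfl⟩ ⟨hy, rfl⟩ ⟨hz, rfl⟩
  exact this

/-- Singular points of the foliation. -/
def Sing (x y z : k) : Prop :=
  th x y z * z = 0 ∧ th y x z * z = 0 ∧ th x y z * y = th y x z * x

/-- The line dual to `p` contains no singular point. -/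
def Good (p : Fin 3 → k) : Prop :=
  ∀ x y z : k, Sing x y z → x * p 0 + y * p 1 + z * p 2 = 0 → x = 0 ∧ y = 0 ∧ z = 0

lemma Good.p0 {p : Fin 3 → k} (h : Good p) : p 0 ≠ 0 := by
  intro e
  have := h 1 0 0 (by simp [Sing, th]) (by simp [e])
  simp at this

lemma Good.root {p : Fin 3 → k} (h : Good p) (u t : k) (ha : al (p 0) (p 1) (p 2) u t = 0)
    (hb : be (p 0) (p 1) (p 2) u t = 0) : u = 0 ∧ t = 0 := by
  simp only [al, be] at ha hb
  have := h (p 1 * t - p 2 * u) (-(p 0 * t)) (p 0 * u)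
    ⟨by linear_combination u * ha - p 1 * hb, by linear_combination p 0 * hb,
      by linear_combination (-t) * ha + p 2 * hb⟩ (by ring)
  have h0 := h.p0
  exact ⟨by simpa [h0] using this.2.2, by simpa [h0] using this.2.1⟩

/-- A polynomial vanishing at the coordinates of normalized singular points. -/
noncomputable def Rp (k : Type) [Field k] : Polynomial k :=
  th Polynomial.X 0 1 * th Polynomial.X 2 1 * th Polynomial.X 3 1 *
    (16 * Polynomial.X ^ 4 - 104 * Polynomial.X ^ 2 + 25) *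
    (25 * Polynomial.X ^ 4 - 65 * Polynomial.X ^ 2 - 32) *
    ((Polynomial.X ^ 4 - 1) * (Polynomial.X ^ 4 - 6 * Polynomial.X ^ 2 + 1))

lemma eval_Rp (x : k) : (Rp k).eval x = th x 0 1 * th x 2 1 * th x 3 1 *
    (16 * x ^ 4 - 104 * x ^ 2 + 25) * (25 * x ^ 4 - 65 * x ^ 2 - 32) *
    ((x ^ 4 - 1) * (x ^ 4 - 6 * x ^ 2 + 1)) := by
  rw [← Polynomial.coe_evalRingHom]
  simp only [Rp, map_mul, map_th, map_add, map_sub, map_pow, map_ofNat, map_one, map_zero,
    Polynomial.coe_evalRingHom, Polynomial.eval_X]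

lemma Rp_ne [CharZero k] : Rp k ≠ 0 := by
  intro h
  have := eval_Rp (k := k) 6
  rw [h] at this
  norm_num [th] at this

lemma aff_root [CharZero k] {x y : k} (h1 : th x y 1 = 0) (h2 : th y x 1 = 0) :
    (Rp k).eval x = 0 := by
  rw [eval_Rp]
  simp only [th] at h1 h2
  rcases mul_eq_zero.mp h1 with a | a
  · have : th x 0 1 = 0 := by simp only [th]; rw [a, zero_mul]
    simp [this]
  rcases mul_eq_zero.mp h2 with b | b
  · rcases mul_eq_zero.mp b with b | b
    · rcases mul_eq_zero.mp b with b | b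
      · have : th x 0 1 = 0 := by subst b; simp only [th]; rw [a, mul_zero]
        simp [this]
      · have : th x 2 1 = 0 := by
          simp only [th]
          apply mul_eq_zero_of_right
          linear_combination a + (6 * x * x - 21 * y * y - 6) * b
        simp [this]
    · have : th x 3 1 = 0 := by
        simp only [th]
        apply mul_eq_zero_of_right
        linear_combination a + (6 * x * x - 21 * y * y - 111) * b
      simp [this]
  have c : (x * x - y * y) * (5 * (x * x + y * y) - 13) = 0 := by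
    linear_combination (-1 / 4) * a + (1 / 4) * b
  rcases mul_eq_zero.mp c with c | c
  · have : 16 * x ^ 4 - 104 * x ^ 2 + 25 = 0 := by
      linear_combination a + (15 * x * x + 21 * y * y - 78) * c
    simp [this]
  · have : 25 * x ^ 4 - 65 * x ^ 2 - 32 = 0 := by
      linear_combination (25 / 28) * a + (135 / 28 * x * x - 15 / 4 * y * y + 117 / 28) * c
    simp [this]

lemma exists_good [CharZero k] : ∃ G : MvPolynomial (Fin 3) k, G ≠ 0 ∧
    ∀ p, eval p G ≠ 0 → Good p := by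
  classical
  set N : Finset k := (Rp k).roots.toFinset with hN
  have mem : ∀ x : k, (Rp k).eval x = 0 → x ∈ N := fun x hx => by
    rw [hN, Multiset.mem_toFinset, Polynomial.mem_roots Rp_ne]; exact hx
  have m0 : (0 : k) ∈ N := mem 0 (by rw [eval_Rp]; simp [th])
  have m1 : (1 : k) ∈ N := mem 1 (by rw [eval_Rp]; simp)
  refine ⟨∏ s ∈ (Fintype.piFinset fun _ : Fin 3 => N).erase 0, lin s,
    Finset.prod_ne_zero_iff.mpr fun s hs => lin_ne (Finset.ne_of_mem_erase hs), fun p hp => ?_⟩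
  rw [map_prod, Finset.prod_ne_zero_iff] at hp
  have key : ∀ x y z : k, x ∈ N → y ∈ N → z ∈ N → x * p 0 + y * p 1 + z * p 2 = 0 →
      x = 0 ∧ y = 0 ∧ z = 0 := by
    intro x y z hx hy hz e
    by_contra hc
    refine hp ![x, y, z] (Finset.mem_erase.mpr ⟨fun h0 => hc ⟨congrFun h0 0, congrFun h0 1,
      congrFun h0 2⟩, Fintype.mem_piFinset.mpr fun i => ?_⟩) ?_
    · fin_cases i
      · exact hx
      · exact hy
      · exact hz
    · rw [eval_lin, Fin.sum_univ_three]; exact e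
  rintro x y z ⟨s1, s2, s3⟩ e
  by_cases hz : z = 0
  · subst hz
    by_cases hx : x = 0
    · subst hx
      refine ⟨rfl, ?_, rfl⟩
      by_contra hy
      have := key 0 1 0 m0 m1 m0 (by
        apply mul_left_cancel₀ hy; linear_combination e)
      simp at this
    · exfalso
      obtain ⟨m, rfl⟩ : ∃ m, y = x * m := ⟨y / x, by field_simp⟩
      have hm : m ∈ N := by
        have c : x ^ 10 * (m * ((m ^ 4 - 1) * (m ^ 4 - 6 * m ^ 2 + 1))) = 0 := by
          simp only [th] at s3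
          linear_combination -s3
        rcases mul_eq_zero.mp ((mul_eq_zero.mp c).resolve_left (pow_ne_zero _ hx)) with c | c
        · rw [c]; exact m0
        · exact mem m (by rw [eval_Rp, c, mul_zero])
      have := key 1 m 0 m1 hm m0 (by
        apply mul_left_cancel₀ hx; linear_combination e)
      simp at this
  · exfalso
    obtain ⟨a, rfl⟩ : ∃ a, x = z * a := ⟨x / z, by field_simp⟩
    obtain ⟨b, rfl⟩ : ∃ b, y = z * b := ⟨y / z, by field_simp⟩
    have t1 := th_smul z a b 1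
    have t2 := th_smul z b a 1
    rw [mul_one] at t1 t2
    rw [t1] at s1
    rw [t2] at s2
    have a1 : th a b 1 = 0 := by simpa [hz] using s1
    have a2 : th b a 1 = 0 := by simpa [hz] using s2
    have := key a b 1 (mem _ (aff_root a1 a2)) (mem _ (aff_root a2 a1)) m1 (by
      apply mul_left_cancel₀ hz; linear_combination e)
    simp at this

end Pool.Agent.MP_ddc23f_ag.H55
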