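import Pool.Agent.MP_ddc23f_ag.H55.Points
import Pool.Agent.MP_ddc23f_ag.H75.Config

/-! Uniqueness, irreducibility and unexpectedness of the curve of degree ten. -/

namespace Pool.Agent.MP_ddc23f_ag.H55

open MvPolynomial Pool.Agent.MP_ddc23f_ag.H75

variable {k : Type} [Field k]

lemma eval_aeval1 (g : Fin 3 → Polynomial k) (G : MvPolynomial (Fin 3) k) (t : k) :
    (aeval g G).eval t = eval (fun i => (g i).eval t) G := by
  induction G using MvPolynomial.induction_on with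
  | C a => simp
  | add f g hf hg => simp [hf, hg]
  | mul_X f i hf => simp [hf]

/-- Expansion around `p` in the direction `(0, 1, T)`. -/
noncomputable def psi (p : Fin 3 → k) :
    MvPolynomial (Fin 3) k →ₐ[k] Polynomial (Polynomial k) :=
  aeval fun i => Polynomial.C (Polynomial.C (p i)) +
    Polynomial.C ((![0, 1, Polynomial.X] : Fin 3 → Polynomial k) i) * Polynomial.X

lemma psi_eval (p : Fin 3 → k) (G : MvPolynomial (Fin 3) k) (s T : k) :
    ((psi p G).eval (Polynomial.C s)).eval T = eval ![p 0, p 1 + s, p 2 + T * s] G := by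
  induction G using MvPolynomial.induction_on with
  | C a => simp [psi]
  | add f g hf hg => simp [hf, hg]
  | mul_X f i hf =>
    rw [map_mul, Polynomial.eval_mul, Polynomial.eval_mul, hf, map_mul]
    congr 1
    fin_cases i <;> simp [psi]
    exact mul_comm _ _

lemma psi_deg (p : Fin 3 → k) (G : MvPolynomial (Fin 3) k) (j : ℕ) :
    ((psi p G).coeff j).natDegree ≤ j := by
  induction G using MvPolynomial.induction_on generalizing j with
  | C a =>
    have : psi p (C a) = Polynomial.C (Polynomial.C a) := by simp [psi]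
    rw [this, Polynomial.coeff_C]
    split_ifs <;> simp
  | add f g hf hg =>
    rw [map_add, Polynomial.coeff_add]
    exact (Polynomial.natDegree_add_le _ _).trans (max_le (hf j) (hg j))
  | mul_X f i hf =>
    have d : ((![0, 1, Polynomial.X] : Fin 3 → Polynomial k) i).natDegree ≤ 1 := by
      fin_cases i <;> simp
    rw [map_mul, psi, aeval_X, ← psi, mul_add, ← mul_assoc, Polynomial.coeff_add,
      Polynomial.coeff_mul_C]
    refine (Polynomial.natDegree_add_le _ _).trans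
      (max_le ((Polynomial.natDegree_mul_C_le _ _).trans (hf j)) ?_)
    cases j with
    | zero => simp
    | succ j =>
      rw [Polynomial.coeff_mul_X, Polynomial.coeff_mul_C]
      exact Polynomial.natDegree_mul_le_of_le (hf j) d

lemma psi_dvd [Infinite k] (p : Fin 3 → k) {G : MvPolynomial (Fin 3) k} {n : ℕ}
    (hG : G ∈ vecIdeal p ^ n) : Polynomial.X ^ n ∣ psi p G := by
  have h1 : (vecIdeal p).map (psi p) ≤ Ideal.span {Polynomial.X} := by
    rw [Ideal.map_le_iff_le_comap]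
    intro H hH
    rw [Ideal.mem_comap, Ideal.mem_span_singleton, Polynomial.X_dvd_iff,
      Polynomial.coeff_zero_eq_eval_zero]
    apply Polynomial.funext
    intro T
    have := psi_eval p H 0 T
    rw [map_zero] at this
    have e : (![p 0, p 1 + 0, p 2 + T * 0] : Fin 3 → k) = p := by
      ext i
      fin_cases i <;> simp
    rw [this, Polynomial.eval_zero, e, eval_of_mem_vecIdeal hH]
  have h2 := Ideal.mem_map_of_mem (psi p) hG
  rw [Ideal.map_pow] at h2
  have h3 := Ideal.pow_right_mono h1 n h2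
  rwa [Ideal.span_singleton_pow, Ideal.mem_span_singleton] at h3

lemma struct [Infinite k] (p : Fin 3 → k) {G : MvPolynomial (Fin 3) k}
    (hG : G ∈ vecIdeal p ^ 9) (hh : G.IsHomogeneous 10) :
    ∃ A B : Polynomial k, A.natDegree ≤ 9 ∧ B.natDegree ≤ 10 ∧ ∀ e T : k,
      eval ![e * p 0, e * p 1 + 1, e * p 2 + T] G = e * A.eval T + B.eval T := by
  refine ⟨(psi p G).coeff 9, (psi p G).coeff 10, psi_deg p G 9, psi_deg p G 10, fun e T => ?_⟩
  have hd : (psi p G).natDegree ≤ 10 := by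
    have := aeval_natDegree_le (MvPolynomial.map Polynomial.C G) (m := 10) (n := 1)
      (hh.map Polynomial.C).totalDegree_le
      (fun i => Polynomial.C (Polynomial.C (p i)) +
        Polynomial.C ((![0, 1, Polynomial.X] : Fin 3 → Polynomial k) i) * Polynomial.X)
      (fun i => by compute_degree)
    exact (congrArg Polynomial.natDegree (aeval_map_algebraMap (Polynomial k) _ G)).symm.le.trans
      this
  have hpsi : psi p G = Polynomial.C ((psi p G).coeff 9) * Polynomial.X ^ 9 +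
      Polynomial.C ((psi p G).coeff 10) * Polynomial.X ^ 10 := by
    have h9 := Polynomial.X_pow_dvd_iff.mp (psi_dvd p hG)
    refine Polynomial.ext fun n => ?_
    rw [Polynomial.coeff_add, Polynomial.coeff_C_mul_X_pow, Polynomial.coeff_C_mul_X_pow]
    split_ifs with a b b
    · omega
    · rw [a, add_zero]
    · rw [b, zero_add]
    · rw [add_zero]
      rcases lt_or_gt_of_ne a with c | c
      · exact h9 n c
      · exact Polynomial.coeff_eq_zero_of_natDegree_lt (by omega)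
  have hne : ∀ e : k, e ≠ 0 → eval ![e * p 0, e * p 1 + 1, e * p 2 + T] G =
      e * ((psi p G).coeff 9).eval T + ((psi p G).coeff 10).eval T := by
    intro e he
    have a := psi_eval p G e⁻¹ T
    have b : (![e * p 0, e * p 1 + 1, e * p 2 + T] : Fin 3 → k) =
        e • ![p 0, p 1 + e⁻¹, p 2 + T * e⁻¹] := by
      ext i
      fin_cases i <;> simp <;> field_simp
    rw [b, eval_smul_hom hh, ← a]
    conv_lhs => rw [hpsi]
    simp only [Polynomial.eval_add, Polynomial.eval_mul, Polynomial.eval_C, Polynomial.eval_pow,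
      Polynomial.eval_X]
    field_simp
  have hpol : aeval ![Polynomial.X * Polynomial.C (p 0), Polynomial.X * Polynomial.C (p 1) + 1,
      Polynomial.X * Polynomial.C (p 2) + Polynomial.C T] G =
      Polynomial.X * Polynomial.C (((psi p G).coeff 9).eval T) +
        Polynomial.C (((psi p G).coeff 10).eval T) := by
    apply Polynomial.eq_of_infinite_eval_eq
    refine (Set.finite_singleton (0 : k)).infinite_compl.mono fun e he => ?_
    rw [Set.mem_ofPred_eq, eval_aeval1]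
    simp only [Polynomial.eval_add, Polynomial.eval_mul, Polynomial.eval_C, Polynomial.eval_X]
    rw [← hne e he]
    congr 2
    ext i
    fin_cases i <;> simp <;> exact mul_comm _ _
  have := congrArg (Polynomial.eval e) hpol
  rw [eval_aeval1] at this
  simp only [Polynomial.eval_add, Polynomial.eval_mul, Polynomial.eval_C, Polynomial.eval_X] at this
  rw [← this]
  congr 2
  ext i
  fin_cases i <;> simp <;> exact mul_comm _ _

lemma Fp_mem [CharZero k] (p : Fin 3 → k) :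
    Fp p ∈ degPart (setIdeal (Zc k) ⊓ vecIdeal p ^ 9) 10 := by
  refine mem_degPart.mpr ⟨⟨mem_IZ.mpr fun j => mem_vecIdeal_of_hom (Fp_hom p) ?_, Fp_mem_pow p⟩,
    Fp_hom p⟩
  rw [eval_Fp]
  exact tan_vec j _ _ _ (by ring)

lemma mult [CharZero k] [IsAlgClosed k] {p : Fin 3 → k} (h : Good p)
    {G : MvPolynomial (Fin 3) k} (hG : G ∈ degPart (setIdeal (Zc k) ⊓ vecIdeal p ^ 9) 10) :
    ∃ c : k, c • Fp p = G := by
  obtain ⟨⟨a1, a2⟩, a3⟩ := mem_degPart.mp hG
  obtain ⟨A, B, hA, hB, hAB⟩ := struct p a2 a3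
  obtain ⟨c, h1, h2⟩ := uniq h A B hA hB fun j U e T hU hv => by
    have := eval_of_mem_vecIdeal (mem_IZ.mp a1 j)
    rw [hv, eval_smul_hom a3, hAB] at this
    exact (mul_eq_zero.mp this).resolve_left (pow_ne_zero _ hU)
  refine ⟨c, ?_⟩
  have hne : (C (p 0) * X 1 - C (p 1) * X 0 : MvPolynomial (Fin 3) k) ≠ 0 := by
    intro e
    apply h.p0
    simpa using congrArg (eval ![0, 1, 0]) e
  apply mul_left_cancel₀ hne
  apply MvPolynomial.funext
  intro q
  rw [map_mul, map_mul]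
  by_cases hq : p 0 * q 1 - p 1 * q 0 = 0
  · simp [hq]
  · congr 1
    obtain ⟨U, e, T, -, rfl⟩ := chart h.p0 q hq
    rw [smul_eq_C_mul, map_mul, eval_C, eval_smul_hom a3, eval_smul_hom (Fp_hom p), hAB, eval_Fp,
      h1, h2]
    simp only [Matrix.cons_val, Ff_chart, Polynomial.eval_mul, Polynomial.eval_C, eval_alP,
      eval_beP]
    ring

/-- Linear change of coordinates moving `(1, 0, 0)` to `p`. -/
noncomputable def chg (p : Fin 3 → k) (h0 : p 0 ≠ 0) :
    MvPolynomial (Fin 3) k ≃ₐ[k] MvPolynomial (Fin 3) k :=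
  AlgEquiv.ofAlgHom
    (aeval ![X 0 * C (p 0), X 0 * C (p 1) + X 1, X 0 * C (p 2) + X 2])
    (aeval ![X 0 * C (p 0)⁻¹, X 1 - X 0 * C (p 0)⁻¹ * C (p 1), X 2 - X 0 * C (p 0)⁻¹ * C (p 2)])
    (by
      have e : (C (p 0) : MvPolynomial (Fin 3) k) * C (p 0)⁻¹ = 1 := by
        rw [← map_mul, mul_inv_cancel₀ h0, map_one]
      ext1 i
      fin_cases i <;> simp
      · linear_combination (X 0) * e
      · linear_combination (-(X 0 * C (p 1))) * e
      · linear_combination (-(X 0 * C (p 2))) * e)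
    (by
      have e : (C (p 0) : MvPolynomial (Fin 3) k) * C (p 0)⁻¹ = 1 := by
        rw [← map_mul, mul_inv_cancel₀ h0, map_one]
      ext1 i
      fin_cases i <;> simp
      linear_combination (X 0) * e)

lemma Fp_irreducible [IsAlgClosed k] {p : Fin 3 → k} (h : Good p) : Irreducible (Fp p) := by
  rw [← MulEquiv.irreducible_iff (chg p h.p0), ← MulEquiv.irreducible_iff (finSuccEquiv k 2)]
  set a : MvPolynomial (Fin 2) k := al (C (p 0)) (C (p 1)) (C (p 2)) (X 0) (X 1) with ha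
  set b : MvPolynomial (Fin 2) k := be (C (p 0)) (C (p 1)) (C (p 2)) (X 0) (X 1) with hb
  have e : finSuccEquiv k 2 (chg p h.p0 (Fp p)) = Polynomial.C a * Polynomial.X + Polynomial.C b := by
    have c : ∀ r : k, finSuccEquiv k 2 (C r) = Polynomial.C (C r) := fun r => by
      simp [finSuccEquiv_apply]
    have x1 : finSuccEquiv k 2 (X 1) = Polynomial.C (X 0) := finSuccEquiv_X_succ (j := 0)
    have x2 : finSuccEquiv k 2 (X 2) = Polynomial.C (X 1) := finSuccEquiv_X_succ (j := 1)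
    have e1 : chg p h.p0 (Fp p) = Ff (C (p 0)) (C (p 1)) (C (p 2)) (X 0 * C (p 0))
        (X 0 * C (p 1) + X 1) (X 0 * C (p 2) + X 2) := by
      simp [chg, Fp, map_Ff]
    rw [e1, Ff_chart, map_add, map_mul, map_al, map_be, ha, hb, map_al, map_be, c, c, c, x1, x2,
      finSuccEquiv_X_zero, mul_comm]
  rw [e]
  have ea : ∀ q : Fin 2 → k, eval q a = al (p 0) (p 1) (p 2) (q 0) (q 1) := fun q => by
    simp only [ha, map_al, eval_C, eval_X]
  have eb : ∀ q : Fin 2 → k, eval q b = be (p 0) (p 1) (p 2) (q 0) (q 1) := fun q => by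
    simp only [hb, map_be, eval_C, eval_X]
  refine Polynomial.irreducible_C_mul_X_add_C (fun a0 => ?_) fun d da db => ?_
  · have := ea ![0, 1]
    rw [a0, map_zero] at this
    simpa using (h.root 0 1 this.symm (by simp [be])).2
  · have rad : ∀ i : Fin 2, ∃ n : ℕ, d ∣ X i ^ n := by
      intro i
      have : (X i : MvPolynomial (Fin 2) k) ∈ (Ideal.span {d}).radical := by
        rw [← vanishingIdeal_zeroLocus_eq_radical (K := k), mem_vanishingIdeal_iff]
        intro q hq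
        have hd : eval q d = 0 := by
          simpa using hq d (Ideal.mem_span_singleton_self d)
        obtain ⟨a', ha'⟩ := da
        obtain ⟨b', hb'⟩ := db
        have := h.root (q 0) (q 1) (by rw [← ea, ha', map_mul, hd, zero_mul])
          (by rw [← eb, hb', map_mul, hd, zero_mul])
        fin_cases i
        · simpa using this.1
        · simpa using this.2
      obtain ⟨n, hn⟩ := this
      exact ⟨n, Ideal.mem_span_singleton.mp hn⟩
    obtain ⟨m, hm⟩ := rad 0
    obtain ⟨n, hn⟩ := rad 1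
    have : IsRelPrime (X 0 : MvPolynomial (Fin 2) k) (X 1) :=
      X_prime.irreducible.isRelPrime_iff_not_dvd.mpr (by simp)
    exact this.pow hm hn

theorem general_unique [CharZero k] [IsAlgClosed k] :
    General fun P : Projectivization k (Fin 3 → k) =>
      Module.finrank k (degPart (fatIdeal (Zc k) 9 P) 10) = 1 ∧
        ∀ F ∈ degPart (fatIdeal (Zc k) 9 P) 10, F ≠ 0 → Irreducible F := by
  obtain ⟨G, hG0, hG⟩ := exists_good (k := k)
  refine general_of_poly (fun p => Module.finrank k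
      (degPart (setIdeal (Zc k) ⊓ vecIdeal p ^ 9) 10) = 1 ∧
      ∀ F ∈ degPart (setIdeal (Zc k) ⊓ vecIdeal p ^ 9) 10, F ≠ 0 → Irreducible F) G hG0
    (fun p hp => ?_) (fun p t ht h => by rwa [vecIdeal_smul p ht] at h)
  have h := hG p hp
  have hI := Fp_irreducible h
  refine ⟨?_, fun F hF hF0 => ?_⟩
  · rw [finrank_eq_one_iff_of_nonzero' (⟨_, Fp_mem p⟩ : degPart _ 10)
      (fun e => hI.ne_zero (congrArg Subtype.val e))]
    intro w
    obtain ⟨t, ht⟩ := mult h w.2
    exact ⟨t, Subtype.ext ht⟩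
  · obtain ⟨t, rfl⟩ := mult h hF
    have ht : t ≠ 0 := by rintro rfl; simp at hF0
    rw [smul_eq_C_mul, irreducible_isUnit_mul (IsUnit.map C (isUnit_iff_ne_zero.mpr ht))]
    exact hI

/-- For each point, ten lines missing it and covering the other twenty points. -/
def sepL : Fin 21 → Fin 10 → Fin 3 → ℤ :=
  ![![![0, 0, 1], ![-2, -2, 1], ![2, 2, 1], ![-3, -3, 1], ![3, 3, 1], ![0, 0, 1], ![-1, 0, 1], ![1, 0, 1], ![-5, 0, 1], ![5, 0, 1]],
    ![![1, 0, 0], ![1, -1, 0], ![1, 1, 0], ![-2, 0, 1], ![2, 0, 1], ![-3, 0, 1], ![3, 0, 1], ![1, 0, 0], ![1, 0, 0], ![1, 0, 0]],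
    ![![1, 0, 0], ![1, -1, 0], ![1, 1, 0], ![0, 0, 1], ![2, 0, 1], ![-3, 0, 1], ![3, 0, 1], ![1, 0, 0], ![1, 0, 0], ![1, 0, 0]],
    ![![1, 0, 0], ![1, -1, 0], ![1, 1, 0], ![0, 0, 1], ![-2, 0, 1], ![-3, 0, 1], ![3, 0, 1], ![1, 0, 0], ![1, 0, 0], ![1, 0, 0]],
    ![![1, 0, 0], ![1, -1, 0], ![1, 1, 0], ![0, 0, 1], ![-2, 0, 1], ![2, 0, 1], ![3, 0, 1], ![1, 0, 0], ![1, 0, 0], ![1, 0, 0]],
    ![![1, 0, 0], ![1, -1, 0], ![1, 1, 0], ![0, 0, 1], ![-2, 0, 1], ![2, 0, 1], ![-3, 0, 1], ![1, 0, 0], ![1, 0, 0], ![1, 0, 0]],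
    ![![0, 1, 0], ![1, -1, 0], ![1, 1, 0], ![0, -2, 1], ![0, 2, 1], ![0, -3, 1], ![0, 3, 1], ![0, 1, 0], ![0, 1, 0], ![0, 1, 0]],
    ![![0, 1, 0], ![1, -1, 0], ![1, 1, 0], ![0, 0, 1], ![0, 2, 1], ![0, -3, 1], ![0, 3, 1], ![0, 1, 0], ![0, 1, 0], ![0, 1, 0]],
    ![![0, 1, 0], ![1, -1, 0], ![1, 1, 0], ![0, 0, 1], ![0, -2, 1], ![0, -3, 1], ![0, 3, 1], ![0, 1, 0], ![0, 1, 0], ![0, 1, 0]],
    ![![0, 1, 0], ![1, -1, 0], ![1, 1, 0], ![0, 0, 1], ![0, -2, 1], ![0, 2, 1], ![0, 3, 1], ![0, 1, 0], ![0, 1, 0], ![0, 1, 0]],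
    ![![0, 1, 0], ![1, -1, 0], ![1, 1, 0], ![0, 0, 1], ![0, -2, 1], ![0, 2, 1], ![0, -3, 1], ![0, 1, 0], ![0, 1, 0], ![0, 1, 0]],
    ![![0, 1, 0], ![1, 0, 0], ![1, 1, 0], ![-1, 0, 1], ![1, 0, 1], ![-5, 0, 1], ![5, 0, 1], ![1, 0, 0], ![1, 0, 0], ![1, 0, 0]],
    ![![0, 1, 0], ![1, 0, 0], ![1, 1, 0], ![0, 0, 1], ![1, 0, 1], ![-5, 0, 1], ![5, 0, 1], ![1, 0, 0], ![1, 0, 0], ![1, 0, 0]],
    ![![0, 1, 0], ![1, 0, 0], ![1, 1, 0], ![0, 0, 1], ![-1, 0, 1], ![-5, 0, 1], ![5, 0, 1], ![1, 0, 0], ![1, 0, 0], ![1, 0, 0]],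
    ![![0, 1, 0], ![1, 0, 0], ![1, 1, 0], ![0, 0, 1], ![-1, 0, 1], ![1, 0, 1], ![5, 0, 1], ![1, 0, 0], ![1, 0, 0], ![1, 0, 0]],
    ![![0, 1, 0], ![1, 0, 0], ![1, 1, 0], ![0, 0, 1], ![-1, 0, 1], ![1, 0, 1], ![-5, 0, 1], ![1, 0, 0], ![1, 0, 0], ![1, 0, 0]],
    ![![0, 1, 0], ![1, 0, 0], ![1, -1, 0], ![-1, 0, 1], ![1, 0, 1], ![-5, 0, 1], ![5, 0, 1], ![1, 0, 0], ![1, 0, 0], ![1, 0, 0]],
    ![![0, 1, 0], ![1, 0, 0], ![1, -1, 0], ![0, 0, 1], ![1, 0, 1], ![-5, 0, 1], ![5, 0, 1], ![1, 0, 0], ![1, 0, 0], ![1, 0, 0]],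
    ![![0, 1, 0], ![1, 0, 0], ![1, -1, 0], ![0, 0, 1], ![-1, 0, 1], ![-5, 0, 1], ![5, 0, 1], ![1, 0, 0], ![1, 0, 0], ![1, 0, 0]],
    ![![0, 1, 0], ![1, 0, 0], ![1, -1, 0], ![0, 0, 1], ![-1, 0, 1], ![1, 0, 1], ![5, 0, 1], ![1, 0, 0], ![1, 0, 0], ![1, 0, 0]],
    ![![0, 1, 0], ![1, 0, 0], ![1, -1, 0], ![0, 0, 1], ![-1, 0, 1], ![1, 0, 1], ![-5, 0, 1], ![1, 0, 0], ![1, 0, 0], ![1, 0, 0]]]

lemma sepL_spec : ∀ i j : Fin 21, (∏ l, ∑ c, sepL j l c * zv i c) = 0 ↔ i ≠ j := by
  decide +kernel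

lemma finrank_hom10 : Module.finrank k (homogeneousSubmodule (Fin 3) k 10) ≤ 66 ∧
    Module.Finite k (homogeneousSubmodule (Fin 3) k 10) := by
  classical
  let s : Finset (Σ _ : ℕ, ℕ) := (Finset.range 11).sigma fun j => Finset.range (11 - j)
  let m : (Σ _ : ℕ, ℕ) → MvPolynomial (Fin 3) k := fun x =>
    X 0 ^ (10 - x.1 - x.2) * X 1 ^ x.1 * X 2 ^ x.2
  have hle : homogeneousSubmodule (Fin 3) k 10 ≤ Submodule.span k (s.image m) := by
    intro F hF
    obtain ⟨c, rfl⟩ := hom_rep (show F.IsHomogeneous 10 from hF)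
    refine Submodule.sum_mem _ fun j hj => Submodule.sum_mem _ fun l hl => ?_
    rw [← smul_eq_C_mul]
    refine Submodule.smul_mem _ _ (Submodule.subset_span ?_)
    exact Finset.mem_coe.mpr (Finset.mem_image.mpr ⟨⟨j, l⟩, Finset.mem_sigma.mpr ⟨hj, hl⟩, rfl⟩)
  have hs : s.card = 66 := by decide +kernel
  have fin : Module.Finite k (Submodule.span k (s.image m : Set (MvPolynomial (Fin 3) k))) :=
    Module.Finite.span_of_finite k (Finset.finite_toSet _)
  exact ⟨(Submodule.finrank_mono hle).trans ((finrank_span_finset_le_card _).trans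
    (Finset.card_image_le.trans hs.le)), Submodule.finiteDimensional_of_le hle⟩

lemma finrank_IZ [CharZero k] : Module.finrank k (degPart (setIdeal (Zc k)) 10) ≤ 45 := by
  obtain ⟨h66, fin⟩ := finrank_hom10 (k := k)
  let ev : homogeneousSubmodule (Fin 3) k 10 →ₗ[k] (Fin 21 → k) :=
    { toFun := fun F j => eval (vec j) F.1
      map_add' := fun a b => by ext j; simp
      map_smul' := fun c a => by ext j; simp }
  have hsurj : LinearMap.range ev = ⊤ := by
    have hs : ∀ j, Pi.single j (1 : k) ∈ LinearMap.range ev := by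
      intro j
      have hh : (∏ l, lin fun c => (sepL j l c : k)).IsHomogeneous 10 := by
        simpa using IsHomogeneous.prod Finset.univ (fun l : Fin 10 => lin fun c => (sepL j l c : k))
          (fun _ => 1) fun l _ => lin_hom _
      have he : ∀ i, eval (vec i) (∏ l, lin fun c => (sepL j l c : k)) =
          ((∏ l, ∑ c, sepL j l c * zv i c : ℤ) : k) := fun i => by
        simp [eval_lin, vec]
      have hj : ((∏ l, ∑ c, sepL j l c * zv j c : ℤ) : k) ≠ 0 := by
        rw [Int.cast_ne_zero]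
        exact fun e => (sepL_spec j j).mp e rfl
      refine ⟨((∏ l, ∑ c, sepL j l c * zv j c : ℤ) : k)⁻¹ • ⟨_, hh⟩, ?_⟩
      rw [map_smul]
      ext i
      change _ * eval (vec i) (∏ l, lin fun c => (sepL j l c : k)) = _
      rw [he]
      by_cases hi : i = j
      · subst hi; rw [inv_mul_cancel₀ hj, Pi.single_eq_same]
      · rw [(sepL_spec i j).mpr hi, Pi.single_eq_of_ne hi]; simp
    rw [eq_top_iff]
    intro v _
    rw [pi_eq_sum_univ' v]
    exact Submodule.sum_mem _ fun j _ => Submodule.smul_mem _ _ (hs j)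
  have hrk := LinearMap.finrank_range_add_finrank_ker ev
  rw [hsurj, finrank_top, Module.finrank_fin_fun] at hrk
  have hle : degPart (setIdeal (Zc k)) 10 ≤
      (LinearMap.ker ev).map (homogeneousSubmodule (Fin 3) k 10).subtype := by
    intro F hF
    obtain ⟨a1, a2⟩ := mem_degPart.mp hF
    refine ⟨⟨F, a2⟩, ?_, rfl⟩
    ext j
    exact eval_of_mem_vecIdeal (mem_IZ.mp a1 j)
  have := (Submodule.finrank_mono hle).trans (Submodule.finrank_map_le _ _)
  omega

theorem unexpected [CharZero k] [IsAlgClosed k] : Unexpected (Zc k) 10 9 := by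
  refine general_unique.mono fun P hP => ?_
  have := finrank_IZ (k := k)
  rw [hP.1]
  have e : (9 + 1).choose 2 = 45 := by decide
  rw [e]
  omega

end Pool.Agent.MP_ddc23f_ag.H55
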